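import Pool.Agent.helper60.DB.SpecM

/-!
# Row bm:M1
-/

namespace Pool.Agent.helper60.DB

theorem M1_EE_zero (R : Type) [CommRing R] : EE (0 : PowerSeries R) = 0 := by
  rw [EE, map_zero, mul_zero]

theorem M1_EE_one (R : Type) [CommRing R] : EE (1 : PowerSeries R) = 0 := by
  rw [EE, Derivation.map_one_eq_zero, mul_zero]

theorem M1_EE_neg (R : Type) [CommRing R] (g : PowerSeries R) : EE (-g) = -EE g := by
  rw [EE, EE, map_neg, mul_neg]

theorem M1 : M1_stmt := by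
  intro R _ A' B' α y g u
  refine ⟨fun h => ⟨?_, h.one, ?_, ?_⟩, ⟨?_, ?_, ?_, ?_⟩, fun h => ⟨?_, h.cu, ?_, ?_⟩⟩
  · rw [map_one]
  · rw [h.sq]; ring
  · rw [M1_EE_one, map_one]; ring
  · rw [map_zero]
  · rw [map_one]
  · ring
  · rw [M1_EE_zero, map_zero]; ring
  · rw [map_neg, h.cg]
  · rw [h.cur]; ring
  · rw [M1_EE_neg, map_neg]
    linear_combination - h.ode

end Pool.Agent.helper60.DB
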